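import Pool.Agent.Helper81.UR2.Goals

/-! Packet UV-SCH: counting of the reads. -/

namespace Pool.Agent.Helper47.UR2

open Finset Pool.Agent.Helper81.UR2

/-- the invariant of the states -/
def Gd (D T : ℕ) (V κ : ℕ → ℕ) (q : ℕ × ℕ × ℕ × ℕ) : Prop :=
  q.1 ≤ T ∧ q.2.2.1 ≤ D ∧ (∃ t' ≤ T, q.2.1 = V t') ∧ (q.2.2.2 = 0 ∨ ∃ t' ≤ T, q.2.2.2 = κ t' + 1)

/-- the number of reads from `q` on -/
def rdn (D : ℕ) (V E κ : ℕ → ℕ) (q : ℕ × ℕ × ℕ × ℕ) (R : ℕ) : ℕ :=
  ((range R).filter fun j => D ≤ ((sch D V E κ)^[j] q).2.2.1 ∧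
    ((sch D V E κ)^[j] q).2.1 = V ((sch D V E κ)^[j] q).1).card

/-- the number of changes in `[t, T)` -/
def chg (T : ℕ) (B V : ℕ → ℕ) (t : ℕ) : ℕ :=
  ((range T).filter fun s => t ≤ s ∧ (B (s + 1) ≠ B s ∨ V (s + 1) ≠ V s)).card

lemma rdn_succ (D : ℕ) (V E κ : ℕ → ℕ) (q : ℕ × ℕ × ℕ × ℕ) (R : ℕ) :
    rdn D V E κ q (R + 1) = (if D ≤ q.2.2.1 ∧ q.2.1 = V q.1 then 1 else 0) +
      rdn D V E κ (sch D V E κ q) R := by
  unfold rdn
  rw [Finset.card_filter, Finset.card_filter, Finset.sum_range_succ', Nat.add_comm]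
  simp only [Function.iterate_succ_apply, Function.iterate_zero, id]
  congr

lemma main (D T : ℕ) (B V E κ : ℕ → ℕ)
    (h : ∀ t < T, t < E t ∧ E t ≤ T ∧ (∀ t', t ≤ t' → t' < E t → B t' = B t ∧ V t' = V t) ∧
      (E t < T → B (E t) ≠ B t ∨ V (E t) ≠ V t)) :
    ∀ (m : ℕ) (q : ℕ × ℕ × ℕ × ℕ),
      (T - q.1) * (D + 2) + (if q.2.1 ≠ V q.1 then D + 1 else 0) + (D - q.2.2.1) ≤ m →
      Gd D T V κ q →
      ∃ R, ((sch D V E κ)^[R] q).1 = T ∧ (∀ j ≤ R, Gd D T V κ ((sch D V E κ)^[j] q)) ∧
        rdn D V E κ q R ≤ chg T B V q.1 + (if q.1 < T then 1 else 0) := by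
  intro m
  induction m with
  | zero =>
    intro q hm hq
    have h1 : T - q.1 = 0 := by
      by_contra hne
      have : 1 ≤ T - q.1 := Nat.one_le_iff_ne_zero.2 hne
      have h2 : 1 * (D + 2) ≤ (T - q.1) * (D + 2) := Nat.mul_le_mul_right _ this
      omega
    refine ⟨0, ?_, ?_, ?_⟩
    · have := hq.1
      simp only [Function.iterate_zero, id]
      omega
    · intro j hj
      have : j = 0 := by omega
      subst this
      simpa using hq
    · simp [rdn]
  | succ m ih =>
    intro q hm hq
    by_cases hT : q.1 = T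
    · refine ⟨0, by simpa using hT, ?_, by simp [rdn]⟩
      intro j hj
      have : j = 0 := by omega
      subst this
      simpa using hq
    have hlt : q.1 < T := lt_of_le_of_ne hq.1 hT
    -- composition
    have comp : ∀ c : ℕ, (if D ≤ q.2.2.1 ∧ q.2.1 = V q.1 then 1 else 0) = c →
        Gd D T V κ (sch D V E κ q) →
        (T - (sch D V E κ q).1) * (D + 2) +
          (if (sch D V E κ q).2.1 ≠ V (sch D V E κ q).1 then D + 1 else 0) +
          (D - (sch D V E κ q).2.2.1) ≤ m →
        c + (chg T B V (sch D V E κ q).1 + (if (sch D V E κ q).1 < T then 1 else 0)) ≤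
          chg T B V q.1 + 1 →
        ∃ R, ((sch D V E κ)^[R] q).1 = T ∧ (∀ j ≤ R, Gd D T V κ ((sch D V E κ)^[j] q)) ∧
          rdn D V E κ q R ≤ chg T B V q.1 + (if q.1 < T then 1 else 0) := by
      intro c hc hg hm' hle
      obtain ⟨R, hR, hgd, hrd⟩ := ih (sch D V E κ q) hm' hg
      refine ⟨R + 1, ?_, ?_, ?_⟩
      · rw [Function.iterate_succ_apply]; exact hR
      · intro j hj
        cases j with
        | zero => simpa using hq
        | succ j =>
          rw [Function.iterate_succ_apply]
          exact hgd j (by omega)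
      · rw [rdn_succ, hc, if_pos hlt]
        omega
    obtain ⟨t, ω, i, e⟩ := q
    simp only at hm hq hT hlt comp
    obtain ⟨hq1, hq2, hq3, hq4⟩ := hq
    simp only at hq1 hq2 hq3 hq4
    by_cases hi : i < D
    · have hs : sch D V E κ (t, ω, i, e) = (t, ω, i + 1, 0) := by
        simp [sch, hi]
      apply comp 0
      · rw [if_neg]; omega
      · rw [hs]; exact ⟨hq1, hi, hq3, Or.inl rfl⟩
      · rw [hs]; simp only; omega
      · rw [hs]; simp only; rw [if_pos hlt]; omega
    · have hiD : i = D := by omega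
      subst hiD
      by_cases hω : ω = V t
      · have hs : sch i V E κ (t, ω, i, e) = (E t, ω, i, κ t + 1) := by
          simp [sch, hω]
        obtain ⟨h1, h2, h3, h4⟩ := h t hlt
        apply comp 1
        · rw [if_pos]; exact ⟨le_refl _, hω⟩
        · rw [hs]; exact ⟨h2, le_refl _, hq3, Or.inr ⟨t, hq1, rfl⟩⟩
        · rw [hs]; simp only
          have h5 : (T - E t + 1) * (i + 2) ≤ (T - t) * (i + 2) := Nat.mul_le_mul_right _ (by omega)
          have h6 : (if ω ≠ V (E t) then i + 1 else 0) ≤ i + 1 := by split_ifs <;> omega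
          have h7 : (T - E t + 1) * (i + 2) = (T - E t) * (i + 2) + (i + 2) := by ring
          omega
        · rw [hs]; simp only
          by_cases hE : E t < T
          · rw [if_pos hE]
            have h8 : chg T B V (E t) + 1 ≤ chg T B V t := by
              unfold chg
              rw [← Finset.card_insert_of_notMem (a := E t - 1)]
              · apply Finset.card_le_card
                intro s hs'
                rw [Finset.mem_insert] at hs'
                rw [Finset.mem_filter, Finset.mem_range]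
                rcases hs' with hs' | hs'
                · subst hs'
                  have h9 := h3 (E t - 1) (by omega) (by omega)
                  have h10 : E t - 1 + 1 = E t := by omega
                  refine ⟨by omega, by omega, ?_⟩
                  rw [h10, h9.1, h9.2]
                  exact h4 hE
                · rw [Finset.mem_filter, Finset.mem_range] at hs'
                  exact ⟨hs'.1, by omega, hs'.2.2⟩
              · rw [Finset.mem_filter]
                rintro ⟨_, h9, _⟩
                omega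
            omega
          · rw [if_neg hE]
            have h8 : chg T B V (E t) = 0 := by
              unfold chg
              rw [Finset.card_eq_zero, Finset.filter_eq_empty_iff]
              intro s hs'
              rw [Finset.mem_range] at hs'
              rintro ⟨h9, _⟩
              omega
            omega
      · have hs : sch i V E κ (t, ω, i, e) = (t, V t, 0, 0) := by
          simp [sch, hω]
        apply comp 0
        · rw [if_neg]; rintro ⟨_, h1⟩; exact hω h1
        · rw [hs]; exact ⟨hq1, Nat.zero_le _, ⟨t, hq1, rfl⟩, Or.inl rfl⟩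
        · rw [hs]; simp only
          rw [if_pos hω] at hm
          simp only [ne_eq, not_true_eq_false, if_false]
          omega
        · rw [hs]; simp only; rw [if_pos hlt]; omega

theorem gSCH : GoalSCH := by
  intro D T B V E κ h
  obtain ⟨R, hR, hgd, hrd⟩ := main D T B V E κ h _ (0, V 0, 0, 0) (le_refl _)
    ⟨Nat.zero_le _, Nat.zero_le _, ⟨0, Nat.zero_le _, rfl⟩, Or.inl rfl⟩
  refine ⟨R, hR, hgd, ?_⟩
  refine le_trans (show (rds D V E κ R).card ≤ _ from hrd) ?_
  apply Nat.add_le_add
  · unfold chg
    apply Finset.card_le_card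
    intro s hs
    rw [Finset.mem_filter] at hs ⊢
    exact ⟨hs.1, hs.2.2⟩
  · split_ifs <;> omega

end Pool.Agent.Helper47.UR2
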